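import Pool.Agent.H61.KW.TA

/-!
# MP_c11ac4_gt, board KW, row GNF: faces of simplicial cones
-/

set_option autoImplicit false

namespace Pool.Agent.H58.KW.GNF

open Pool.Agent.H61.KV Pool.Agent.H61.KW

variable {V : Type} [NormedAddCommGroup V] [NormedSpace ℝ V] [FiniteDimensional ℝ V] {C : Set V}

theorem sum_fc {ι : Type} (hC : IsCC C) {p : V} (hp : p ∈ C) (s : Finset ι) (f : ι → V)
    (h : ∀ i ∈ s, f i ∈ Fc C p) : ∑ i ∈ s, f i ∈ Fc C p :=
  Finset.sum_induction f (fun v => v ∈ Fc C p) (fun _ _ ha hb => add_fc hC hp ha hb)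
    (zero_fc hC hp) h

theorem gen_rk {q : V} {n : ℕ} {x : Fin n → V} (hG : Gen C x q) : rk C q = n := by
  obtain ⟨hli, -, hxq, hgen⟩ := hG
  have h1 : Sp C q = Submodule.span ℝ (Set.range x) := by
    apply le_antisymm
    · refine Submodule.span_le.2 ?_
      intro r hr
      obtain ⟨c, -, rfl⟩ := hgen r hr
      exact Submodule.sum_mem _ fun i _ =>
        Submodule.smul_mem _ _ (Submodule.subset_span ⟨i, rfl⟩)
    · refine Submodule.span_le.2 ?_
      rintro _ ⟨i, rfl⟩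
      exact Submodule.subset_span (hxq i)
  unfold rk
  rw [h1, finrank_span_eq_card hli, Fintype.card_fin]

theorem term_fc (hC : IsCC C) {n : ℕ} (y : Fin n → V) (hy : ∀ i, y i ∈ C) (i : Fin n) :
    ∑ j, y j ∈ C ∧ y i ∈ Fc C (∑ j, y j) ∧ ∑ j ∈ Finset.univ.erase i, y j ∈ C ∧
      y i + ∑ j ∈ Finset.univ.erase i, y j = ∑ j, y j := by
  have hs : ∀ s : Finset (Fin n), ∑ j ∈ s, y j ∈ C := fun s =>
    Finset.sum_induction y (fun v => v ∈ C) (fun a b ha hb => hC.add a ha b hb) hC.zero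
      (fun i _ => hy i)
  have h1 : y i + ∑ j ∈ Finset.univ.erase i, y j = ∑ j, y j :=
    Finset.add_sum_erase _ _ (Finset.mem_univ i)
  refine ⟨hs _, ?_, hs _, h1⟩
  rw [← h1]
  exact left_fc hC (hy i) (hs _)

theorem comb (hC : IsCC C) {q : V} (hq : q ∈ C) {n : ℕ} {x : Fin n → V} (hG : Gen C x q)
    (r : V) (h : ∃ c : Fin n → ℝ, (∀ i, 0 ≤ c i) ∧ r = ∑ i, c i • x i) : r ∈ Fc C q := by
  obtain ⟨c, hc, rfl⟩ := h
  exact sum_fc hC hq _ _ fun i _ => smul_fc hC hq (hc i) (hG.2.2.1 i)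

theorem part5 (hC : IsCC C) {q : V} (hq : q ∈ C) {n : ℕ} {x : Fin n → V} (hG : Gen C x q)
    (c : Fin n → ℝ) (hc : ∀ i, 0 ≤ c i) (r : V) (hr : r ∈ Fc C (∑ i, c i • x i)) :
    ∃ d : Fin n → ℝ, (∀ i, 0 ≤ d i) ∧ (∀ i, c i = 0 → d i = 0) ∧ r = ∑ i, d i • x i := by
  have hp : ∑ i, c i • x i ∈ Fc C q := comb hC hq hG _ ⟨c, hc, rfl⟩
  have hrq : r ∈ Fc C q := tra hC hq hp hr
  obtain ⟨hrC, N, hN, hNr⟩ := hr
  have h1 : N • ∑ i, c i • x i - r ∈ Fc C q := by
    refine (face hC hq hNr hrC ?_).1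
    rw [sub_add_cancel]
    exact smul_fc hC hq hN hp
  obtain ⟨d, hd, hd2⟩ := hG.2.2.2 r hrq
  obtain ⟨e, he, he2⟩ := hG.2.2.2 _ h1
  have h2 : ∑ i, (N * c i - d i - e i) • x i = 0 := by
    have : ∀ i, (N * c i - d i - e i) • x i = N • (c i • x i) - d i • x i - e i • x i := by
      intro i
      rw [sub_smul, sub_smul, mul_smul]
    rw [Finset.sum_congr rfl fun i _ => this i, Finset.sum_sub_distrib, Finset.sum_sub_distrib,
      ← Finset.smul_sum, ← he2, ← hd2]
    abel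
  have h3 := Fintype.linearIndependent_iff.1 hG.1 _ h2
  refine ⟨d, hd, fun i hi => ?_, hd2⟩
  have h4 := h3 i
  rw [hi, mul_zero] at h4
  have := hd i
  have := he i
  linarith

theorem pf_GNF : T_GNF := by
  classical
  intro V _ _ _ C q n x hC hq hG
  have hxC : ∀ i, x i ∈ C := fun i => (hG.2.1 i).1
  refine ⟨gen_rk hG, ?_, comb hC hq hG, ?_, part5 hC hq hG, ?_⟩
  · obtain ⟨c, hc, h⟩ := hG.2.2.2 q (self hC hq)
    have hS : ∑ i, x i ∈ C := Finset.sum_induction x (fun v => v ∈ C)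
      (fun a b ha hb => hC.add a ha b hb) hC.zero (fun i _ => hxC i)
    have h1 : ∑ i, c i • x i ∈ Fc C (∑ i, x i) :=
      sum_fc hC hS _ _ fun i _ => smul_fc hC hS (hc i) (term_fc hC x hxC i).2.1
    rw [← h] at h1
    exact h1
  · intro y hy hyq
    obtain ⟨c, hc, h⟩ := hG.2.2.2 y hyq
    have h1 : ∃ i, c i ≠ 0 := by
      by_contra hcon
      push Not at hcon
      apply hy.2.1
      rw [h]
      exact Finset.sum_eq_zero fun i _ => by rw [hcon i, zero_smul]
    obtain ⟨i, hi⟩ := h1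
    have hi' : 0 < c i := lt_of_le_of_ne (hc i) (Ne.symm hi)
    obtain ⟨-, -, h2, h3⟩ := term_fc hC (fun j => c j • x j)
      (fun j => hC.smul _ (hc j) _ (hxC j)) i
    obtain ⟨⟨d, hd, hd2⟩, -⟩ := ex_add hC hy (hC.smul _ (hc i) _ (hxC i)) h2 (h3.trans h.symm)
    have hd' : 0 < d := by
      rcases hd.eq_or_lt with h4 | h4
      · exfalso
        rw [← h4, zero_smul] at hd2
        exact (smul_ne_zero hi (hG.2.1 i).2.1) hd2
      · exact h4
    refine ⟨i, smul_mem hC (hxC i) hd' ?_⟩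
    rw [← hd2]
    exact smul_fc hC (hxC i) (hc i) (self hC (hxC i))
  · intro p hp
    obtain ⟨c, hc, h⟩ := hG.2.2.2 p hp
    have hpC := mem_C hp
    let I : Finset (Fin n) := Finset.univ.filter fun i => 0 < c i
    let e : Fin I.card ≃ I := I.equivFin.symm
    have hgen : Gen C (fun j => x (e j : Fin n)) p := by
      refine ⟨hG.1.comp (fun j => (e j : Fin n)) (Subtype.val_injective.comp e.injective),
        fun j => hG.2.1 _, fun j => ?_, fun r hr => ?_⟩
      · have hj : 0 < c (e j : Fin n) := (Finset.mem_filter.1 (e j).2).2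
        have h1 := (term_fc hC (fun i => c i • x i)
          (fun i => hC.smul _ (hc i) _ (hxC i)) (e j : Fin n)).2.1
        rw [← h] at h1
        exact smul_mem hC hpC hj h1
      · have hr' : r ∈ Fc C (∑ i, c i • x i) := by rw [← h]; exact hr
        obtain ⟨d, hd, hd0, hd2⟩ := part5 hC hq hG c hc r hr'
        refine ⟨fun j => d (e j : Fin n), fun j => hd _, ?_⟩
        rw [hd2]
        have h1 : ∑ j, d (e j : Fin n) • x (e j : Fin n) =
            ∑ i : I, d (i : Fin n) • x (i : Fin n) :=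
          Equiv.sum_comp e (fun i : I => d (i : Fin n) • x (i : Fin n))
        rw [h1, Finset.sum_coe_sort I (fun i => d i • x i)]
        symm
        refine Finset.sum_subset (Finset.subset_univ I) ?_
        intro i _ hi
        have h2 : c i = 0 := by
          by_contra h3
          exact hi (Finset.mem_filter.2 ⟨Finset.mem_univ i,
            lt_of_le_of_ne (hc i) (Ne.symm h3)⟩)
        rw [hd0 i h2, zero_smul]
    rw [gen_rk hgen]
    exact ⟨_, hgen⟩

end Pool.Agent.H58.KW.GNF
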