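import Pool.Agent.H61.KW.TA

/-!
# MP_c11ac4_gt, board KW, row LDI
-/

set_option autoImplicit false

namespace Pool.Agent.H58.KW.LDI

open Pool.Agent.H61.KV Pool.Agent.H61.KW

theorem pf_LDI (h : T_SPG) (h2 : T_FIG) : T_LDI := by
  intro V _ _ _ C q g σ s s' r hC hqf hg hf hσ hs hs' hr hrr
  have hq := hqf.1
  have hσC : σ ∈ C := mem_C hσ
  have hsC : s ∈ C := mem_C hs
  have hsC' : s' ∈ C := mem_C hs'
  have hsq : s ∈ Fc C q := tra hC hq hσ hs
  have hsq' : s' ∈ Fc C q := tra hC hq hσ hs'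
  have hrs : r ∈ Fc C s := ((hrr r).1 (self hC hr)).1
  have hrq : r ∈ Fc C q := tra hC hq hsq hrs
  -- the rank of `K t`
  have hK : ∀ t, t ∈ Fc C q → Module.finrank ℝ (Sp C (g + t) ⊔ Sp C q : Submodule ℝ V) +
      rk C t = rk C (g + t) + rk C q := by
    intro t ht
    have htC := mem_C ht
    have e1 : Sp C (g + t) ⊓ Sp C q = Sp C t := by
      apply le_antisymm
      · rintro v ⟨hv1, hv2⟩
        exact h V C q (g + t) t hC hqf (hC.add g hg t htC) htC
          (fun u hu hu' => foot_face hC hq hg ht hf hu hu') v hv2 hv1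
      · exact le_inf (sp_mono hC (hC.add g hg t htC) (right_fc hC hg htC)) (sp_mono hC hq ht)
    have e2 := Submodule.finrank_sup_add_finrank_inf_eq (Sp C (g + t)) (Sp C q)
    rw [e1] at e2
    exact e2
  have hmono : ∀ t, t ∈ Fc C σ → Sp C (g + t) ⊔ Sp C q ≤ Sp C (g + σ) ⊔ Sp C q := by
    intro t ht
    have h3 : g + σ ∈ C := hC.add g hg σ hσC
    refine sup_le_sup_right (sp_mono hC h3 (add_fc hC h3 (left_fc hC hg hσC) ?_)) _
    exact tra hC h3 (right_fc hC hg hσC) ht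
  have hint : (Sp C (g + s) ⊔ Sp C q) ⊓ (Sp C (g + s') ⊔ Sp C q) ≤ Sp C (g + r) ⊔ Sp C q := by
    rintro v ⟨hv1, hv2⟩
    obtain ⟨a, ha, t, ht, hat⟩ := Submodule.mem_sup.1 hv1
    obtain ⟨a', ha', t', ht', hat'⟩ := Submodule.mem_sup.1 hv2
    have hgs : g + s ∈ C := hC.add g hg s hsC
    have hgs' : g + s' ∈ C := hC.add g hg s' hsC'
    obtain ⟨e, he, he2⟩ := room hC hgs ha
    obtain ⟨e', he', he2'⟩ := room hC hgs' ha'
    obtain ⟨δ, hδ, hδ1, hδ2⟩ : ∃ δ : ℝ, 0 < δ ∧ δ ≤ e ∧ δ ≤ e' :=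
      ⟨min e e', lt_min he he', min_le_left _ _, min_le_right _ _⟩
    have hb : δ⁻¹ • (g + s) + a ∈ Fc C (g + s) := by
      have h3 := smul_fc hC hgs (inv_nonneg.2 hδ.le) (he2 δ hδ.le hδ1)
      rwa [smul_add, smul_smul, inv_mul_cancel₀ hδ.ne', one_smul] at h3
    have hb' : δ⁻¹ • (g + s') + a' ∈ Fc C (g + s') := by
      have h3 := smul_fc hC hgs' (inv_nonneg.2 hδ.le) (he2' δ hδ.le hδ2)
      rwa [smul_add, smul_smul, inv_mul_cancel₀ hδ.ne', one_smul] at h3
    generalize hbd : δ⁻¹ • (g + s) + a = b at hb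
    generalize hbd' : δ⁻¹ • (g + s') + a' = b' at hb'
    have hdiff : b' - b ∈ Sp C q := by
      have h4 : b' - b = δ⁻¹ • (s' - s) + (t - t') := by
        have h5 : a' - a = t - t' := by
          rw [sub_eq_sub_iff_add_eq_add, hat', ← hat]
          abel
        rw [← hbd, ← hbd', ← h5, smul_add, smul_add, smul_sub]
        abel
      rw [h4]
      exact Submodule.add_mem _ (Submodule.smul_mem _ _
        (Submodule.sub_mem _ (mem_sp hsq') (mem_sp hsq))) (Submodule.sub_mem _ ht ht')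
    obtain ⟨k, hk⟩ := hqf.2 b (mem_C hb)
    have hk' : Foot C q b' k := by
      have h3 := foot_shift hk hdiff
      rwa [add_sub_cancel] at h3
    have hkC := foot_memC hC hq hk
    have hd := foot_dec hC hq (mem_C hb) hk
    have hd' := foot_dec hC hq (mem_C hb') hk'
    have hk1 : k ∈ Fc C (g + s) := by
      refine (face hC hgs hkC (mem_C hd) ?_).1
      rwa [add_sub_cancel]
    have hk2 : k ∈ Fc C (g + s') := by
      refine (face hC hgs' hkC (mem_C hd') ?_).1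
      rwa [add_sub_cancel]
    have hkr : k ∈ Fc C (g + r) := h2 V C q g s s' r hC hqf hg hf hsq hsq' hr hrr k hk1 hk2
    refine Submodule.mem_sup.2 ⟨k - δ⁻¹ • g, Submodule.sub_mem _ (mem_sp hkr)
      (Submodule.smul_mem _ _ (mem_sp (left_fc hC hg hr))), (b - k) - δ⁻¹ • s + t,
      Submodule.add_mem _ (Submodule.sub_mem _ (mem_sp hd)
        (Submodule.smul_mem _ _ (mem_sp hsq))) ht, ?_⟩
    rw [← hat, ← hbd, smul_add]
    abel
  have f1 := Submodule.finrank_sup_add_finrank_inf_eq (Sp C (g + s) ⊔ Sp C q)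
    (Sp C (g + s') ⊔ Sp C q)
  have f2 := Submodule.finrank_mono (sup_le (hmono s hs) (hmono s' hs'))
  have f3 := Submodule.finrank_mono hint
  have k1 := hK s hsq
  have k2 := hK s' hsq'
  have k3 := hK r hrq
  have k4 := hK σ hσ
  omega

end Pool.Agent.H58.KW.LDI
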