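import Pool.Agent.H61.KW.TA

/-!
# MP_c11ac4_gt, board KW, row NCL
-/

set_option autoImplicit false

namespace Pool.Agent.H58.KW.NCL

open Pool.Agent.H61.KV Pool.Agent.H61.KW
open Filter Topology

theorem pf_NCL (h : T_XSP) (h2 : T_SCE) : T_NCL := by
  classical
  intro V _ _ _ C q t hC hq h3 hS ht ε hε
  have hte : Ex C t := hS t ht
  have htC := hte.1
  obtain ⟨s1, hs1, hs1q, hs1t⟩ := h V C q (Submodule.span ℝ {t}) hC hq (by
    rw [finrank_span_singleton ht.2.1]
    omega)
  have hs1C := hs1.1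
  have hs1t' : s1 ∉ Fc C t := by
    intro h4
    obtain ⟨c, hc⟩ := hte.2.2 s1 h4
    exact hs1t (hc ▸ Submodule.smul_mem _ _ (Submodule.mem_span_singleton_self t))
  have hqs : q ∈ Fc C (t + s1) := h2 V C q t s1 hC hq hS hte hs1 ht.1 hs1q hs1t'
  obtain ⟨ξ, hξ, hξt, hξq⟩ := supp hC hq ht.1 ht.2.2
  -- the plane of `t` and `s1`
  let W : Submodule ℝ V := Submodule.span ℝ ((({t, s1} : Finset V) : Set V))
  have hWt : t ∈ W := Submodule.subset_span (by simp)
  have hWs : s1 ∈ W := Submodule.subset_span (by simp)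
  have hW2 : Module.finrank ℝ W ≤ 2 :=
    (finrank_span_finset_le_card _).trans Finset.card_le_two
  obtain ⟨w0, hw0, hw0W⟩ : ∃ w0, w0 ∈ Sp C q ∧ w0 ∉ W := by
    by_contra hcon
    push Not at hcon
    have h5 : Sp C q ≤ W := fun v hv => hcon v hv
    have h6 := Submodule.finrank_mono h5
    unfold rk at h3
    omega
  have hqSp := self_sp hC hq
  have hqS : q ∈ Sp C q := hqSp
  obtain ⟨w, hw, hwW, hξw⟩ : ∃ w, w ∈ Sp C q ∧ w ∉ W ∧ ξ w < 0 := by
    obtain ⟨N, hN⟩ : ∃ N : ℝ, ξ w0 < N * ξ q := by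
      refine ⟨|ξ w0| / ξ q + 1, ?_⟩
      have h5 : (|ξ w0| / ξ q + 1) * ξ q = |ξ w0| + ξ q := by
        field_simp
      rw [h5]
      have := le_abs_self (ξ w0)
      linarith
    by_cases hc : w0 - N • q ∈ W
    · refine ⟨w0 - (N + 1) • q, Submodule.sub_mem _ hw0 (Submodule.smul_mem _ _ hqS), ?_, ?_⟩
      · intro h5
        have h6 : q ∈ W := by
          have h7 : q = (w0 - N • q) - (w0 - (N + 1) • q) := by
            rw [add_smul, one_smul]
            abel
          rw [h7]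
          exact Submodule.sub_mem _ hc h5
        apply hw0W
        have h7 : w0 = (w0 - N • q) + N • q := by abel
        rw [h7]
        exact Submodule.add_mem _ hc (Submodule.smul_mem _ _ h6)
      · rw [map_sub, map_smul, smul_eq_mul]
        nlinarith
    · refine ⟨w0 - N • q, Submodule.sub_mem _ hw0 (Submodule.smul_mem _ _ hqS), hc, ?_⟩
      rw [map_sub, map_smul, smul_eq_mul]
      linarith
  have hwC : w ∉ C := by
    intro h5
    have h6 := hξ w (of_sp hC hq h5 hw)
    linarith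
  -- the exit points
  have key : ∀ l : ℝ, 0 < l → ∃ c : ℝ, 0 < c ∧ Bd C q (t + l • s1 + c • w) ∧
      t + l • s1 + c • w ∉ Fc C t := by
    intro l hl
    have hp : t + l • s1 ∈ Fc C q := add_fc hC hq ht.1 (smul_fc hC hq hl.le hs1q)
    have hqp : q ∈ Fc C (t + l • s1) := by
      have h5 := fc_add_smul hC htC hs1C (a := 1) (b := l) one_pos hl
      rw [one_smul] at h5
      rw [h5]
      exact hqs
    have hpC := mem_C hp
    have hsp : Sp C (t + l • s1) = Sp C q := sp_eq hC hq hp hqp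
    obtain ⟨c, hc, hb, hb2⟩ := leave hC hpC (w := w) (by rw [hsp]; exact hw) hwC
    have hbq : t + l • s1 + c • w ∈ Fc C q := tra hC hq hp hb
    have hnq : q ∉ Fc C (t + l • s1 + c • w) := fun h5 =>
      hb2 (tra hC (mem_C hb) h5 hp)
    have hnW : t + l • s1 + c • w ∉ W := by
      intro h5
      apply hwW
      have h6 : c • w ∈ W := by
        have h7 : c • w = (t + l • s1 + c • w) - (t + l • s1) := by abel
        rw [h7]
        exact Submodule.sub_mem _ h5 (Submodule.add_mem _ hWt (Submodule.smul_mem _ _ hWs))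
      have h8 := Submodule.smul_mem W c⁻¹ h6
      rwa [smul_smul, inv_mul_cancel₀ hc.ne', one_smul] at h8
    refine ⟨c, hc, ⟨hbq, ?_, hnq⟩, ?_⟩
    · intro h5
      exact hnW (h5 ▸ Submodule.zero_mem _)
    · intro h5
      obtain ⟨d, hd⟩ := hte.2.2 _ h5
      exact hnW (hd ▸ Submodule.smul_mem _ _ hWt)
  by_contra hcon
  push Not at hcon
  let η : ℝ := ε / (2 * (‖w‖ + 1))
  have hη : 0 < η := by positivity
  let l0 : ℝ := ε / (2 * (‖s1‖ + 1))
  have hl0 : 0 < l0 := by positivity
  have hmem : ∀ l : ℝ, 0 < l → l < l0 → t + l • s1 + η • w ∈ C := by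
    intro l hl hl2
    obtain ⟨c, hc, hB, hB2⟩ := key l hl
    have h5 := hcon _ hB hB2
    have h6 : η < c := by
      by_contra h7
      push Not at h7
      have h8 : t + l • s1 + c • w - t = l • s1 + c • w := by abel
      rw [h8] at h5
      have h9 : ‖l • s1 + c • w‖ ≤ l * ‖s1‖ + c * ‖w‖ := by
        refine (norm_add_le _ _).trans ?_
        rw [norm_smul, norm_smul, Real.norm_of_nonneg hl.le, Real.norm_of_nonneg hc.le]
      have h10 : l * ‖s1‖ ≤ l0 * ‖s1‖ := mul_le_mul_of_nonneg_right hl2.le (norm_nonneg _)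
      have h11 : c * ‖w‖ ≤ η * ‖w‖ := mul_le_mul_of_nonneg_right h7 (norm_nonneg _)
      have h12 : l0 * (‖s1‖ + 1) = ε / 2 := by
        show ε / (2 * (‖s1‖ + 1)) * (‖s1‖ + 1) = ε / 2
        have : ‖s1‖ + 1 ≠ 0 := by positivity
        field_simp
      have h13 : η * (‖w‖ + 1) = ε / 2 := by
        show ε / (2 * (‖w‖ + 1)) * (‖w‖ + 1) = ε / 2
        have : ‖w‖ + 1 ≠ 0 := by positivity
        field_simp
      nlinarith
    have h7 : t + l • s1 + η • w = (1 - η / c) • (t + l • s1) + (η / c) • (t + l • s1 + c • w) := by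
      rw [sub_smul, one_smul, smul_add (η / c) (t + l • s1) (c • w), smul_smul,
        div_mul_cancel₀ _ hc.ne']
      abel
    have hpC : t + l • s1 ∈ C := hC.add _ htC _ (hC.smul l hl.le _ hs1C)
    rw [h7]
    refine hC.add _ (hC.smul _ ?_ _ hpC) _ (hC.smul _ (by positivity) _ (mem_C hB.1))
    have : η / c ≤ 1 := by rw [div_le_one hc]; exact h6.le
    linarith
  have hlim : t + (0 : ℝ) • s1 + η • w ∈ C := by
    refine hC.closed.mem_of_tendsto (b := 𝓝[>] (0 : ℝ)) (f := fun l : ℝ => t + l • s1 + η • w)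
      ?_ ?_
    · have hcont : Continuous fun l : ℝ => t + l • s1 + η • w := by fun_prop
      exact (hcont.tendsto 0).mono_left nhdsWithin_le_nhds
    · filter_upwards [Ioo_mem_nhdsGT hl0] with l hl
      exact hmem l hl.1 hl.2
  rw [zero_smul, add_zero] at hlim
  have h14 : t + η • w ∈ Sp C q :=
    Submodule.add_mem _ (mem_sp ht.1) (Submodule.smul_mem _ _ hw)
  have h15 := hξ _ (of_sp hC hq hlim h14)
  rw [map_add, hξt, map_smul, smul_eq_mul, zero_add] at h15
  nlinarith

end Pool.Agent.H58.KW.NCL
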